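import Pool.Agent.Helper53.MF.BoxDefs

set_option autoImplicit false

/-!
# MP_743d72_nt (S17427): the dyadic path of a polynomial at a point (module PATH)
-/

namespace Pool.Agent.Helper53.MF

open MeasureTheory Set

noncomputable section

/-! ## Module PATH (file Path.lean) -/
theorem exists_path {n m : ℕ} (hm : 1 ≤ m) (x : Fin (n + 1) → ℝ) (ξ δ : ℝ)
    (hδ : 0 < δ) (h0 : |tay x ξ 0| < δ) (h1 : ∃ i ≤ n, δ < |tay x ξ i|) :
    ∃ (K : ℕ) (u : ℕ → ℤ) (jx : ℕ → ℕ), Adm n m (fun k => (2 : ℝ) ^ (u k)) jx K ∧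
      (2 : ℝ) ^ (u K) ≤ 2 ^ (n * m + 1) * δ ∧ (∀ k ≤ K, δ < (2 : ℝ) ^ (u k)) ∧
      (∀ k ≤ K, ∀ i ≤ n, |tay x ξ i| ≤ (2 : ℝ) ^ (u k) * 2 ^ (m * k * i)) ∧
      (∀ k ≤ K, (2 : ℝ) ^ (u k) / 2 ≤ |tay x ξ (jx k)| * (1 / 2 ^ (m * k)) ^ (jx k)) ∧
      (∀ k < K, (m : ℤ) ≤ u k - u (k + 1) ∧ u k - u (k + 1) ≤ n * m) := by
  obtain ⟨i₀, hi₀, hδi₀⟩ := h1
  set b : ℕ → ℝ := fun i => |tay x ξ i| with hb
  have hb0 : ∀ i, 0 ≤ b i := fun i => abs_nonneg _
  set c : ℕ → ℕ → ℝ := fun k i => b i * (1 / 2 ^ (m * k)) ^ i with hc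
  have hc0 : ∀ k i, 0 ≤ c k i := fun k i => by
    have := hb0 i
    simp only [hc]; positivity
  have hcs : ∀ k i, c k i = 2 ^ (m * i) * c (k + 1) i := by
    intro k i
    simp only [hc]
    have e : m * (k + 1) = m * k + m := by ring
    rw [e, pow_add, pow_mul (2 : ℝ) m i]
    have : (1 / (2 ^ (m * k) * 2 ^ m) : ℝ) ^ i = (1 / 2 ^ (m * k)) ^ i * (1 / 2 ^ m) ^ i := by
      rw [← mul_pow]; congr 1; field_simp
    rw [this]
    have h2 : ((2 : ℝ) ^ m) ^ i * (1 / 2 ^ m) ^ i = 1 := by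
      rw [← mul_pow]; field_simp; simp
    calc b i * (1 / 2 ^ (m * k)) ^ i = (((2 : ℝ) ^ m) ^ i * (1 / 2 ^ m) ^ i) *
          (b i * (1 / 2 ^ (m * k)) ^ i) := by rw [h2, one_mul]
      _ = _ := by ring
  have hne : (Finset.range (n + 1)).Nonempty := Finset.nonempty_range_add_one
  set a : ℕ → ℝ := fun k => (Finset.range (n + 1)).sup' hne (c k) with ha
  have hle : ∀ k, ∀ i ≤ n, c k i ≤ a k := fun k i hi =>
    Finset.le_sup' (c k) (Finset.mem_range.2 (Nat.lt_succ_of_le hi))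
  have hex : ∀ k, ∃ j ≤ n, c k j = a k := by
    intro k
    obtain ⟨j, hj, h⟩ := Finset.exists_mem_eq_sup' hne (c k)
    exact ⟨j, Nat.lt_succ_iff.1 (Finset.mem_range.1 hj), h.symm⟩
  choose jx hjn hjx using hex
  -- eventually small
  have hev : ∃ k, a k ≤ δ := by
    set B : ℝ := ∑ i ∈ Finset.range (n + 1), b i with hB
    have hB0 : 0 ≤ B := Finset.sum_nonneg fun i _ => hb0 i
    obtain ⟨N, hN⟩ := exists_pow_lt_of_lt_one (show 0 < δ / (B + 1) by positivity)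
      (show (1 / 2 : ℝ) < 1 by norm_num)
    refine ⟨N, ?_⟩
    simp only [ha]
    refine Finset.sup'_le _ _ fun i hi => ?_
    by_cases hi0 : i = 0
    · subst hi0
      simp only [hc, pow_zero, mul_one]
      exact h0.le
    · have hbi : b i ≤ B := Finset.single_le_sum (f := b) (fun i _ => hb0 i) hi
      have h3 : (1 / 2 ^ (m * N) : ℝ) ^ i ≤ (1 / 2) ^ N := by
        have e1 : (1 / 2 ^ (m * N) : ℝ) ^ i = (1 / 2) ^ (m * N * i) := by
          rw [pow_mul (1 / 2 : ℝ) (m * N) i, one_div_pow (2 : ℝ) (m * N)]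
        rw [e1]
        refine pow_le_pow_of_le_one (by norm_num) (by norm_num) ?_
        have : 1 ≤ i := Nat.one_le_iff_ne_zero.2 hi0
        calc N = 1 * N * 1 := by ring
          _ ≤ m * N * i := Nat.mul_le_mul (Nat.mul_le_mul_right _ hm) this
      have h4 : (1 / 2 : ℝ) ^ N * (B + 1) < δ := by rwa [lt_div_iff₀ (by positivity)] at hN
      calc c N i ≤ B * (1 / 2) ^ N := mul_le_mul hbi h3 (by positivity) hB0
        _ ≤ δ := by nlinarith [pow_pos (show (0:ℝ) < 1 / 2 by norm_num) N]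
  have ha0 : δ < a 0 := by
    refine lt_of_lt_of_le hδi₀ ?_
    have := hle 0 i₀ hi₀
    simpa [hc] using this
  classical
  set K' : ℕ := Nat.find hev with hK'
  have hK'1 : a K' ≤ δ := Nat.find_spec hev
  have hK'2 : ∀ k < K', δ < a k := fun k hk => not_le.1 (Nat.find_min hev hk)
  have hK'0 : K' ≠ 0 := by
    intro h
    rw [h] at hK'1
    exact absurd ha0 (not_lt.2 hK'1)
  obtain ⟨K, hKK⟩ := Nat.exists_eq_succ_of_ne_zero hK'0
  have hK1 : a (K + 1) ≤ δ := by rw [← Nat.succ_eq_add_one, ← hKK]; exact hK'1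
  have hK2 : ∀ k ≤ K, δ < a k := fun k hk => hK'2 k (by omega)
  -- the indices
  have hj1 : ∀ k ≤ K, 1 ≤ jx k := by
    intro k hk
    rw [Nat.one_le_iff_ne_zero]
    intro h
    have h2 := hjx k
    rw [h] at h2
    simp only [hc, pow_zero, mul_one] at h2
    have h3 := hK2 k hk
    rw [← h2] at h3
    exact absurd h0 (not_lt.2 h3.le)
  have hup : ∀ k ≤ K, a k ≤ 2 ^ (m * jx k) * a (k + 1) := by
    intro k _
    rw [← hjx k, hcs k (jx k)]
    exact mul_le_mul_of_nonneg_left (hle (k + 1) (jx k) (hjn k)) (by positivity)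
  have hup' : ∀ k ≤ K, a k ≤ 2 ^ (n * m) * a (k + 1) := by
    intro k hk
    refine (hup k hk).trans ?_
    have h2 : 0 ≤ a (k + 1) := by rw [← hjx (k + 1)]; exact hc0 _ _
    refine mul_le_mul_of_nonneg_right (pow_le_pow_right₀ (by norm_num) ?_) h2
    rw [mul_comm]
    exact Nat.mul_le_mul_right _ (hjn k)
  have hlo : ∀ k, 2 ^ (m * jx (k + 1)) * a (k + 1) ≤ a k := by
    intro k
    rw [← hjx (k + 1), ← hcs k (jx (k + 1))]
    exact hle k _ (hjn (k + 1))
  have hanti : ∀ k < K, jx (k + 1) ≤ jx k := by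
    intro k hk
    by_contra hlt
    rw [not_le] at hlt
    have hpos : 0 < a (k + 1) := hδ.trans (hK2 (k + 1) hk)
    have h2 := (hlo k).trans (hup k hk.le)
    have h3 : (2 : ℝ) ^ (m * jx k) < 2 ^ (m * jx (k + 1)) :=
      pow_lt_pow_right₀ (by norm_num) (Nat.mul_lt_mul_of_pos_left hlt hm)
    nlinarith
  -- the dyadic approximation
  set u : ℕ → ℤ := fun k => Int.clog 2 (a k) with hu
  have hu1 : ∀ k, a k ≤ (2 : ℝ) ^ (u k) := fun k => by
    have := Int.self_le_zpow_clog (b := 2) (by norm_num) (a k)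
    simpa using this
  have hu2 : ∀ k ≤ K, ∀ z : ℤ, a k ≤ (2 : ℝ) ^ z → u k ≤ z := by
    intro k hk z hz
    have hpos : 0 < a k := hδ.trans (hK2 k hk)
    have := (Int.le_zpow_iff_clog_le (b := 2) (by norm_num) (x := z) hpos).1 (by simpa using hz)
    exact this
  have hu3 : ∀ k ≤ K, (2 : ℝ) ^ (u k) / 2 ≤ a k := by
    intro k hk
    have hpos : 0 < a k := hδ.trans (hK2 k hk)
    have := Int.zpow_pred_clog_lt_self (b := 2) (by norm_num) hpos
    rw [zpow_sub_one₀ (by norm_num)] at this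
    simpa [div_eq_mul_inv] using this.le
  have hdiff1 : ∀ k < K, (m : ℤ) * jx (k + 1) ≤ u k - u (k + 1) := by
    intro k hk
    have h2 : u (k + 1) ≤ u k - m * jx (k + 1) := by
      apply hu2 (k + 1) hk
      rw [zpow_sub₀ (by norm_num), le_div_iff₀ (by positivity)]
      have h3 := (hlo k).trans (hu1 k)
      have e : ((2 : ℝ) ^ ((m : ℤ) * (jx (k + 1) : ℤ))) = 2 ^ (m * jx (k + 1)) := by
        exact_mod_cast zpow_natCast (2 : ℝ) (m * jx (k + 1))
      rw [e]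
      linarith
    linarith
  have hdiff2 : ∀ k < K, u k - u (k + 1) ≤ m * jx k := by
    intro k hk
    have h2 : u k ≤ u (k + 1) + m * jx k := by
      apply hu2 k hk.le
      rw [zpow_add₀ (by norm_num)]
      have e : ((2 : ℝ) ^ ((m : ℤ) * (jx k : ℤ))) = 2 ^ (m * jx k) := by
        exact_mod_cast zpow_natCast (2 : ℝ) (m * jx k)
      rw [e, mul_comm]
      exact (hup k hk.le).trans (mul_le_mul_of_nonneg_left (hu1 (k + 1)) (by positivity))
    linarith
  have hmlow : ∀ k < K, (m : ℤ) ≤ u k - u (k + 1) := by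
    intro k hk
    have h2 := hdiff1 k hk
    have h3 : (1 : ℤ) ≤ jx (k + 1) := by exact_mod_cast hj1 (k + 1) hk
    have h4 : (0 : ℤ) ≤ m := by positivity
    nlinarith
  have hmup : ∀ k < K, u k - u (k + 1) ≤ n * m := by
    intro k hk
    have h2 := hdiff2 k hk
    have h3 : (jx k : ℤ) ≤ n := by exact_mod_cast hjn k
    have h4 : (0 : ℤ) ≤ m := by positivity
    nlinarith
  refine ⟨K, u, jx, ⟨fun k => by positivity, ?_, ?_, hj1, fun k _ => hjn k, hanti, ?_⟩, ?_, ?_,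
    ?_, ?_, fun k hk => ⟨hmlow k hk, hmup k hk⟩⟩
  · intro k hk
    have := hmlow k hk
    exact zpow_le_zpow_right₀ (by norm_num) (by omega)
  · intro k hk
    have h2 := hmup k hk
    have e : ((2 : ℝ) ^ (n * m)) = 2 ^ ((n : ℤ) * (m : ℤ)) := by
      exact_mod_cast (zpow_natCast (2 : ℝ) (n * m)).symm
    show (2 : ℝ) ^ (u k) ≤ 2 ^ (n * m) * 2 ^ (u (k + 1))
    rw [e, ← zpow_add₀ (by norm_num)]
    exact zpow_le_zpow_right₀ (by norm_num) (by linarith)
  · intro k hk hj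
    have h2 := hdiff1 k hk
    have h3 := hdiff2 k hk
    rw [hj] at h2
    have h4 : u k = (m : ℤ) * jx k + u (k + 1) := by linarith
    show (2 : ℝ) ^ (u k) = 2 ^ (jx k * m) * 2 ^ (u (k + 1))
    rw [h4, zpow_add₀ (by norm_num)]
    congr 1
    rw [mul_comm (jx k) m]
    exact_mod_cast zpow_natCast (2 : ℝ) (m * jx k)
  · have h2 := hu3 K le_rfl
    have h3 : a K ≤ 2 ^ (n * m) * δ :=
      (hup' K le_rfl).trans (mul_le_mul_of_nonneg_left hK1 (by positivity))
    rw [pow_succ]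
    linarith
  · intro k hk
    exact (hK2 k hk).trans_le (hu1 k)
  · intro k _ i hi
    have h2 := (hle k i hi).trans (hu1 k)
    simp only [hc] at h2
    have e : (1 / 2 ^ (m * k) : ℝ) ^ i = (2 ^ (m * k * i))⁻¹ := by
      rw [pow_mul (2 : ℝ) (m * k) i, one_div, inv_pow]
    rw [e, ← div_eq_mul_inv, div_le_iff₀ (by positivity)] at h2
    exact h2
  · intro k hk
    have h2 := hu3 k hk
    rw [← hjx k] at h2
    exact h2

end

end Pool.Agent.Helper53.MF
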