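import Pool.Agent.Helper53.MF.BoxDefs
import Pool.Agent.Helper53.MF.Content

set_option autoImplicit false

/-!
# MP_743d72_nt (S17427): from the box bound to the Hausdorff dimension (module FINAL)
-/

namespace Pool.Agent.Helper53.MF

open MeasureTheory Set
open scoped ENNReal

noncomputable section

/-- the coefficient vector of a polynomial -/
def cvec (n : ℕ) (P : Polynomial ℤ) : Fin (n + 1) → ℤ := fun k => P.coeff k

/-- the dyadic box of a polynomial -/
def dbox (n : ℕ) (P : Polynomial ℤ) : Fin n → ℕ :=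
  fun l => Nat.log 2 (max 1 |P.coeff (l + 1)|).toNat

theorem tay_cvec {n : ℕ} {P : Polynomial ℤ} (hP : P.natDegree ≤ n) (ξ : ℝ) :
    tay (toR (cvec n P)) ξ 0 = Polynomial.aeval ξ P := by
  rw [Polynomial.aeval_eq_sum_range' (Nat.lt_succ_of_le hP)]
  unfold tay toR cvec
  rw [Finset.sum_range]
  refine Finset.sum_congr rfl fun k _ => ?_
  simp

theorem dbox_spec {n : ℕ} (P : Polynomial ℤ) (l : Fin n) :
    (2 : ℤ) ^ (dbox n P l) ≤ max 1 |cvec n P l.succ| ∧
      max 1 |cvec n P l.succ| < (2 : ℤ) ^ (dbox n P l + 1) := by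
  have e : cvec n P l.succ = P.coeff (l + 1) := by simp [cvec]
  rw [e]
  set a : ℤ := max 1 |P.coeff (l + 1)| with ha
  have ha1 : 1 ≤ a := le_max_left _ _
  have hna : a.toNat ≠ 0 := by omega
  have h1 := Nat.pow_log_le_self 2 hna
  have h2 := Nat.lt_pow_succ_log_self (b := 2) (by norm_num) a.toNat
  have h3 : ((a.toNat : ℕ) : ℤ) = a := Int.toNat_of_nonneg (by omega)
  have hd : dbox n P l = Nat.log 2 a.toNat := rfl
  rw [hd]
  constructor
  · rw [← h3]; exact_mod_cast h1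
  · have : ((a.toNat : ℕ) : ℤ) < ((2 ^ (Nat.log 2 a.toNat).succ : ℕ) : ℤ) := by exact_mod_cast h2
    rw [h3] at this
    simpa using this

theorem prod_Icc_eq {n : ℕ} (f : ℕ → ℝ) :
    ∏ i ∈ Finset.Icc 1 n, f i = ∏ l : Fin n, f (l + 1) := by
  rw [Fin.prod_univ_eq_prod_range (fun i => f (i + 1)) n, Finset.range_eq_Ico,
    Finset.prod_Ico_add' f 0 n 1]
  rfl

theorem mem_Eset {n : ℕ} {w : ℝ} (hw : 0 < w) {z : ℤ} {ξ : ℝ} (h1 : (z : ℝ) ≤ ξ)
    (h2 : ξ < (z : ℝ) + 1) {P : Polynomial ℤ} (hP0 : P ≠ 0) (hP : P.natDegree ≤ n)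
    (hs : ((∏ i ∈ Finset.Icc 1 n, max (1 : ℤ) |P.coeff i| : ℤ) : ℝ) ^ w
            * |(Polynomial.aeval ξ P : ℝ)| < 1) :
    ξ ∈ Eset n w z (dbox n P) := by
  refine ⟨h1, h2, cvec n P, ?_, fun l => dbox_spec P l, ?_⟩
  · intro h0
    apply hP0
    ext i
    by_cases hi : i ≤ n
    · have := congrFun h0 ⟨i, Nat.lt_succ_of_le hi⟩
      simpa [cvec] using this
    · rw [Polynomial.coeff_eq_zero_of_natDegree_lt (by omega)]; simp
  · rw [tay_cvec hP]
    set A : ℝ := ((∏ i ∈ Finset.Icc 1 n, max (1 : ℤ) |P.coeff i| : ℤ) : ℝ) with hA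
    have hA' : A = ∏ l : Fin n, ((max 1 |cvec n P l.succ| : ℤ) : ℝ) := by
      rw [hA]
      push_cast
      rw [prod_Icc_eq (fun i => max (1 : ℝ) |(P.coeff i : ℝ)|)]
      refine Finset.prod_congr rfl fun l _ => ?_
      simp [cvec]
    have hle : ∏ l, (2 : ℝ) ^ (dbox n P l) ≤ A := by
      rw [hA']
      refine Finset.prod_le_prod (fun l _ => by positivity) fun l _ => ?_
      have := (dbox_spec P l).1
      exact_mod_cast this
    have hpos : 0 < ∏ l, (2 : ℝ) ^ (dbox n P l) := Finset.prod_pos fun l _ => by positivity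
    have hApos : 0 < A := hpos.trans_le hle
    have h3 : |(Polynomial.aeval ξ P : ℝ)| < A ^ (-w) := by
      rw [Real.rpow_neg hApos.le, ← one_div, lt_div_iff₀ (Real.rpow_pos_of_pos hApos w),
        mul_comm]
      exact hs
    exact h3.trans_le (Real.rpow_le_rpow_of_nonpos hpos hle (by linarith))

/-- finitely many polynomials in a box are small at a given point -/
theorem finite_fiber (n : ℕ) (ξ : ℝ) (t : Fin n → ℕ) :
    {P : Polynomial ℤ | P.natDegree ≤ n ∧ dbox n P = t ∧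
      |(Polynomial.aeval ξ P : ℝ)| < 1}.Finite := by
  set B : ℝ := 1 + ∑ l : Fin n, (2 : ℝ) ^ (t l + 1) * |ξ| ^ ((l : ℕ) + 1) with hB
  set c : Fin (n + 1) → ℤ := Fin.cons ⌈B⌉ (fun l => (2 : ℤ) ^ (t l + 1)) with hc
  have hinj : Set.InjOn (cvec n) {P : Polynomial ℤ | P.natDegree ≤ n ∧ dbox n P = t ∧
      |(Polynomial.aeval ξ P : ℝ)| < 1} := by
    rintro P ⟨hP, -, -⟩ Q ⟨hQ, -, -⟩ h
    ext i
    by_cases hi : i ≤ n
    · exact congrFun h ⟨i, Nat.lt_succ_of_le hi⟩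
    · rw [Polynomial.coeff_eq_zero_of_natDegree_lt (by omega),
        Polynomial.coeff_eq_zero_of_natDegree_lt (by omega)]
  refine Set.Finite.of_finite_image ?_ hinj
  refine Set.Finite.subset (Set.Finite.pi' (t := fun k => Set.Icc (-(c k)) (c k))
    (fun k => Set.finite_Icc _ _)) ?_
  rintro v ⟨P, ⟨hP, ht, hs⟩, rfl⟩
  have hl : ∀ l : Fin n, |cvec n P l.succ| ≤ 2 ^ (t l + 1) := by
    intro l
    have h1 := (dbox_spec P l).2
    rw [ht] at h1
    exact ((le_max_right _ _).trans_lt h1).le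
  intro k
  rw [Set.mem_Icc, ← abs_le]
  refine Fin.cases ?_ (fun l => ?_) k
  · have hc0 : c 0 = ⌈B⌉ := by simp [hc]
    rw [hc0]
    have h1 := tay_cvec hP ξ
    unfold tay at h1
    rw [Fin.sum_univ_succ] at h1
    simp only [Nat.choose_zero_right, Nat.cast_one, one_mul, Nat.sub_zero, Fin.val_zero, pow_zero,
      mul_one, Fin.val_succ] at h1
    have h2 : |(cvec n P 0 : ℝ)| ≤ B := by
      have h3 : (cvec n P 0 : ℝ) = Polynomial.aeval ξ P -
          ∑ x : Fin n, toR (cvec n P) x.succ * ξ ^ ((x : ℕ) + 1) := by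
        rw [← h1]; simp [toR]
      rw [h3, hB]
      refine (abs_sub _ _).trans (add_le_add hs.le ?_)
      refine (Finset.abs_sum_le_sum_abs _ _).trans (Finset.sum_le_sum fun l _ => ?_)
      rw [abs_mul, abs_pow]
      refine mul_le_mul_of_nonneg_right ?_ (by positivity)
      have := hl l
      unfold toR
      exact_mod_cast this
    have h4 : ((|cvec n P 0| : ℤ) : ℝ) ≤ (⌈B⌉ : ℤ) := by
      push_cast
      exact h2.trans (Int.le_ceil B)
    exact_mod_cast h4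
  · have : c l.succ = 2 ^ (t l + 1) := by simp [hc]
    rw [this]
    exact hl l

theorem tsum_pi_pow (g : ℕ → ℝ≥0∞) (n : ℕ) :
    ∑' t : Fin n → ℕ, ∏ l, g (t l) = (∑' k, g k) ^ n := by
  induction n with
  | zero => simp [tsum_fintype]
  | succ n ih =>
    rw [← (Fin.consEquiv (fun _ : Fin (n + 1) => ℕ)).tsum_eq, ENNReal.tsum_prod', pow_succ', ← ih,
      ← ENNReal.tsum_mul_right]
    refine tsum_congr fun a => ?_
    rw [← ENNReal.tsum_mul_left]
    refine tsum_congr fun b => ?_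
    rw [Fin.prod_univ_succ]
    simp [Fin.consEquiv]

theorem tsum_box_ne_top {n : ℕ} {C κ : ℝ} (hC : 0 ≤ C) (hκ : 0 < κ) :
    ∑' t : Fin n → ℕ, ENNReal.ofReal (C * (∏ l, (2 : ℝ) ^ (t l)) ^ (-κ)) ≠ ∞ := by
  set r : ℝ := (2 : ℝ) ^ (-κ) with hr
  have hr0 : 0 < r := by positivity
  have hr1 : r < 1 := Real.rpow_lt_one_of_one_lt_of_neg (by norm_num) (by linarith)
  have e : ∀ t : Fin n → ℕ, ENNReal.ofReal (C * (∏ l, (2 : ℝ) ^ (t l)) ^ (-κ)) =
      ENNReal.ofReal C * ∏ l, (ENNReal.ofReal r) ^ (t l) := by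
    intro t
    rw [ENNReal.ofReal_mul hC, ← Real.finsetProd_rpow _ _ (fun l _ => by positivity),
      ENNReal.ofReal_prod_of_nonneg (fun l _ => by positivity)]
    congr 1
    refine Finset.prod_congr rfl fun l _ => ?_
    rw [← ENNReal.ofReal_pow hr0.le, hr, ← Real.rpow_natCast, ← Real.rpow_natCast,
      ← Real.rpow_mul (by norm_num), ← Real.rpow_mul (by norm_num)]
    congr 2
    ring
  simp_rw [e]
  rw [ENNReal.tsum_mul_left, tsum_pi_pow (fun k => (ENNReal.ofReal r) ^ k) n,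
    ENNReal.tsum_geometric]
  refine ENNReal.mul_ne_top ENNReal.ofReal_ne_top (ENNReal.pow_ne_top ?_)
  rw [ENNReal.inv_ne_top]
  rw [Ne, tsub_eq_zero_iff_le, not_le]
  exact ENNReal.ofReal_lt_one.2 hr1

/-! ## Module FINAL -/
theorem dimH_le_of_box (n : ℕ) (τ : ℝ) (hτ : 1 < τ)
    (hbox : ∀ s : ℝ, 1 / τ < s → s < 1 → ∀ z : ℤ, ∃ C κ : ℝ, 0 ≤ C ∧ 0 < κ ∧
      ∀ t : Fin n → ℕ, content s (Eset n (2 * τ - 1) z t) ≤
        ENNReal.ofReal (C * (∏ l, (2 : ℝ) ^ (t l)) ^ (-κ))) :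
    dimH {ξ : ℝ | {P : Polynomial ℤ | P.natDegree ≤ n ∧
          ((∏ i ∈ Finset.Icc 1 n, max (1 : ℤ) |P.coeff i| : ℤ) : ℝ) ^ (2 * τ - 1)
            * |(Polynomial.aeval ξ P : ℝ)| < 1}.Infinite} ≤ ENNReal.ofReal (1 / τ) := by
  set A : Set ℝ := {ξ : ℝ | {P : Polynomial ℤ | P.natDegree ≤ n ∧
          ((∏ i ∈ Finset.Icc 1 n, max (1 : ℤ) |P.coeff i| : ℤ) : ℝ) ^ (2 * τ - 1)
            * |(Polynomial.aeval ξ P : ℝ)| < 1}.Infinite} with hA
  have hw : 0 < 2 * τ - 1 := by linarith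
  have hτ0 : 0 < τ := by linarith
  have h1τ : 1 / τ < 1 := by rw [div_lt_one hτ0]; exact hτ
  -- every s
  have key : ∀ s : ℝ, 1 / τ < s → s < 1 → dimH A ≤ ENNReal.ofReal s := by
    intro s hs1 hs2
    have hs0 : 0 < s := lt_trans (by positivity) hs1
    have hz : ∀ z : ℤ, μH[s] (A ∩ Ico (z : ℝ) (z + 1)) = 0 := by
      intro z
      obtain ⟨C, κ, hC, hκ, hb⟩ := hbox s hs1 hs2 z
      refine hausdorff_cantelli_content hs0 (fun t => Eset n (2 * τ - 1) z t) ?_ _ ?_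
      · exact ((ENNReal.tsum_le_tsum hb).trans_lt (tsum_box_ne_top hC hκ).lt_top).ne
      · rintro ξ ⟨hξ, hξ1, hξ2⟩
        intro hfin
        apply hξ
        have hsub : {P : Polynomial ℤ | P.natDegree ≤ n ∧
          ((∏ i ∈ Finset.Icc 1 n, max (1 : ℤ) |P.coeff i| : ℤ) : ℝ) ^ (2 * τ - 1)
            * |(Polynomial.aeval ξ P : ℝ)| < 1} ⊆
            {0} ∪ ⋃ t ∈ {t | ξ ∈ Eset n (2 * τ - 1) z t}, {P : Polynomial ℤ | P.natDegree ≤ n ∧
              dbox n P = t ∧ |(Polynomial.aeval ξ P : ℝ)| < 1} := by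
          rintro P ⟨hP, hPs⟩
          by_cases hP0 : P = 0
          · left; exact hP0
          · right
            rw [mem_iUnion₂]
            refine ⟨dbox n P, mem_Eset hw hξ1 hξ2 hP0 hP hPs, hP, rfl, ?_⟩
            have hA1 : (1 : ℝ) ≤ ((∏ i ∈ Finset.Icc 1 n, max (1 : ℤ) |P.coeff i| : ℤ) : ℝ) := by
              have : (1 : ℤ) ≤ ∏ i ∈ Finset.Icc 1 n, max (1 : ℤ) |P.coeff i| := by
                have h := Finset.prod_le_prod (s := Finset.Icc 1 n) (f := fun _ => (1 : ℤ))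
                  (g := fun i => max (1 : ℤ) |P.coeff i|) (fun i _ => by norm_num)
                  (fun i _ => le_max_left _ _)
                simpa using h
              exact_mod_cast this
            have hA2 := Real.one_le_rpow hA1 hw.le
            have hA3 : 0 ≤ |(Polynomial.aeval ξ P : ℝ)| := abs_nonneg _
            nlinarith
        refine Set.Finite.subset ?_ hsub
        exact (Set.finite_singleton 0).union (hfin.biUnion fun t _ => finite_fiber n ξ t)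
    have hcov : A ⊆ ⋃ z : ℤ, A ∩ Ico (z : ℝ) (z + 1) := by
      intro ξ hξ
      rw [mem_iUnion]
      exact ⟨⌊ξ⌋, hξ, Int.floor_le ξ, Int.lt_floor_add_one ξ⟩
    have h0 : μH[s] A = 0 := measure_mono_null hcov (measure_iUnion_null hz)
    refine le_trans (dimH_le_of_hausdorffMeasure_ne_top (d := s.toNNReal) ?_) (le_of_eq rfl)
    rw [Real.coe_toNNReal s hs0.le, h0]
    exact ENNReal.zero_ne_top
  -- infimum
  refine ENNReal.le_of_forall_pos_le_add fun ε hε _ => ?_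
  set s : ℝ := min (1 / τ + ε) ((1 / τ + 1) / 2) with hs
  have hs1 : 1 / τ < s := by
    rw [hs, lt_min_iff]
    constructor
    · have : (0 : ℝ) < ε := hε
      linarith
    · linarith
  have hs2 : s < 1 := lt_of_le_of_lt (min_le_right _ _) (by linarith)
  refine (key s hs1 hs2).trans ?_
  calc ENNReal.ofReal s ≤ ENNReal.ofReal (1 / τ + ε) := ENNReal.ofReal_le_ofReal (min_le_left _ _)
    _ ≤ ENNReal.ofReal (1 / τ) + ENNReal.ofReal ε := ENNReal.ofReal_add_le
    _ = _ := by rw [ENNReal.ofReal_coe_nnreal]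

end

end Pool.Agent.Helper53.MF
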